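import Pool.Agent.Helper59.LUC.Goals2

set_option autoImplicit false

namespace Pool.Agent.Helper59.LUC

namespace PkGS2

open Polynomial

/-- The Gauss polynomial of an odd prime divisor of `r`. -/
lemma gaussP (r p : ℕ) (hr : 0 < r) (hp : p.Prime) (h2 : p ≠ 2) (hpr : p ∣ r) :
    ∃ G : ℚ[X], ∀ w : ℂ, IsPrimitiveRoot (w ^ 2) r →
      (aeval w G) ^ 2 = ((ZMod.χ₄ (p : ZMod 4) : ℤ) : ℂ) * (p : ℂ) ∧ aeval (-w) G = aeval w G := by
  classical
  have : Fact p.Prime := ⟨hp⟩
  have : NeZero p := ⟨hp.ne_zero⟩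
  obtain ⟨m, hm⟩ := hpr
  refine ⟨∑ a : ZMod p, C ((quadraticChar (ZMod p) a : ℤ) : ℚ) * X ^ (2 * (m * a.val)), fun w hw => ?_⟩
  have hev : ∀ z : ℂ, aeval z (∑ a : ZMod p, C ((quadraticChar (ZMod p) a : ℤ) : ℚ) *
      X ^ (2 * (m * a.val))) = ∑ a : ZMod p, ((quadraticChar (ZMod p) a : ℤ) : ℂ) * z ^ (2 * (m * a.val)) := by
    intro z
    rw [map_sum]
    refine Finset.sum_congr rfl fun a _ => ?_
    rw [map_mul, map_pow, aeval_X, aeval_C, eq_ratCast]
    push_cast
    rfl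
  constructor
  · set ξ : ℂ := (w ^ 2) ^ m with hξd
    have hξ : IsPrimitiveRoot ξ p := hw.pow hr (by rw [hm, mul_comm])
    have hchar : ringChar (ZMod p) ≠ 2 := by rwa [ZMod.ringChar_zmod_n]
    have hinj : Function.Injective (Int.castRingHom ℂ) := Int.cast_injective
    set χ : MulChar (ZMod p) ℂ := (quadraticChar (ZMod p)).ringHomComp (Int.castRingHom ℂ) with hχ
    set ψ := AddChar.zmodChar p ((IsPrimitiveRoot.iff_def ξ p).mp hξ).left with hψ
    have hχ1 : χ ≠ 1 := by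
      rw [hχ]
      exact (MulChar.ringHomComp_ne_one_iff hinj).2 (quadraticChar_ne_one hchar)
    have hχ2 : χ.IsQuadratic := (quadraticChar_isQuadratic (ZMod p)).comp _
    have hψp : ψ.IsPrimitive := AddChar.zmodChar_primitive_of_primitive_root p hξ
    have hsum : aeval w (∑ a : ZMod p, C ((quadraticChar (ZMod p) a : ℤ) : ℚ) *
        X ^ (2 * (m * a.val))) = gaussSum χ ψ := by
      rw [hev]
      unfold gaussSum
      refine Finset.sum_congr rfl fun a _ => ?_
      rw [hχ, MulChar.ringHomComp_apply, hψ, AddChar.zmodChar_apply, hξd, ← pow_mul, ← pow_mul]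
      rfl
    rw [hsum, gaussSum_sq hχ1 hχ2 hψp, hχ, MulChar.ringHomComp_apply, quadraticChar_neg_one hchar,
      ZMod.card]
    rfl
  · rw [hev, hev]
    refine Finset.sum_congr rfl fun a _ => ?_
    rw [pow_mul (-w), pow_mul w, neg_sq]

lemma odd_partP (r : ℕ) (hr : 0 < r) (d : ℕ) : d % 2 = 1 → d ∣ r →
    ∃ G : ℚ[X], ∀ w : ℂ, IsPrimitiveRoot (w ^ 2) r →
      (aeval w G) ^ 2 = ((ZMod.χ₄ (d : ZMod 4) : ℤ) : ℂ) * (d : ℂ) ∧ aeval (-w) G = aeval w G := by
  induction d using induction_on_primes with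
  | zero => intro h; omega
  | one => intro _ _; exact ⟨1, fun w _ => ⟨by simp, by simp⟩⟩
  | prime_mul p a hp ih =>
    intro ho hd
    have hpo : p % 2 = 1 := by
      rcases Nat.mod_two_eq_zero_or_one p with h | h
      · exfalso
        have : (p * a) % 2 = 0 := by rw [Nat.mul_mod, h]; simp
        omega
      · exact h
    have hao : a % 2 = 1 := by
      rcases Nat.mod_two_eq_zero_or_one a with h | h
      · exfalso
        have : (p * a) % 2 = 0 := by rw [Nat.mul_mod, h]; simp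
        omega
      · exact h
    obtain ⟨G, hG⟩ := ih hao ((Dvd.intro_left p rfl).trans hd)
    obtain ⟨g, hg⟩ := gaussP r p hr hp (by rintro rfl; omega) ((Dvd.intro a rfl).trans hd)
    refine ⟨g * G, fun w hw => ⟨?_, ?_⟩⟩
    · rw [map_mul, mul_pow, (hg w hw).1, (hG w hw).1]
      push_cast
      rw [map_mul]
      push_cast
      ring
    · rw [map_mul, map_mul, (hg w hw).2, (hG w hw).2]

/-- the sign of the odd part -/
lemma sgn (F : ℤ) : (F % 4 = 1 → ((ZMod.χ₄ ((F.natAbs : ℕ) : ZMod 4) : ℤ) : ℂ) * (F.natAbs : ℂ) = F) ∧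
    (F % 4 = 3 → ((ZMod.χ₄ ((F.natAbs : ℕ) : ZMod 4) : ℤ) : ℂ) * (F.natAbs : ℂ) = -F) := by
  rcases Int.natAbs_eq F with h | h
  · have hc : ((F.natAbs : ℕ) : ℂ) = (F : ℂ) := by
      rw [← Int.cast_natCast, ← h]
    constructor
    · intro h1
      rw [ZMod.χ₄_nat_one_mod_four (by omega), hc]
      push_cast
      ring
    · intro h1
      rw [ZMod.χ₄_nat_three_mod_four (by omega), hc]
      push_cast
      ring
  · have h0 : (F.natAbs : ℤ) = -F := by omega
    have hc : ((F.natAbs : ℕ) : ℂ) = -(F : ℂ) := by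
      rw [← Int.cast_natCast, h0, Int.cast_neg]
    constructor
    · intro h1
      rw [ZMod.χ₄_nat_three_mod_four (by omega), hc]
      push_cast
      ring
    · intro h1
      rw [ZMod.χ₄_nat_one_mod_four (by omega), hc]
      push_cast
      ring

theorem thm : G_GS2 := by
  intro F r hsq hr hT
  obtain ⟨hFr, hc⟩ := hT
  have hr0 : 0 < r := hr
  rcases hc with ⟨hr2, hF⟩ | ⟨hr4, hF⟩ | ⟨hr8, hF⟩
  · obtain ⟨G, hG⟩ := odd_partP r hr0 F.natAbs (by omega) (Int.natAbs_dvd_natAbs.mpr hFr)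
    refine ⟨X ^ r * G, fun w hw => ?_⟩
    obtain ⟨g1, g2⟩ := hG w hw
    have hodd : Odd r := Nat.odd_iff.mpr hr2
    constructor
    · rw [map_mul, map_pow, aeval_X, mul_pow, g1, (sgn F).1 hF, ← pow_mul, mul_comm r 2, pow_mul,
        hw.pow_eq_one, one_mul]
    · rw [map_mul, map_mul, g2, map_pow, map_pow, aeval_X, aeval_X, hodd.neg_pow, neg_mul]
  · obtain ⟨G, hG⟩ := odd_partP r hr0 F.natAbs (by omega) (Int.natAbs_dvd_natAbs.mpr hFr)
    obtain ⟨e, he⟩ : ∃ e, r = e * 2 := ⟨r / 2, by omega⟩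
    have hodd : Odd e := Nat.odd_iff.mpr (by omega)
    refine ⟨X ^ e * G, fun w hw => ?_⟩
    obtain ⟨g1, g2⟩ := hG w hw
    have h2 : IsPrimitiveRoot ((w ^ 2) ^ e) 2 := hw.pow hr0 he
    constructor
    · rw [map_mul, map_pow, aeval_X, mul_pow, g1, (sgn F).2 hF, ← pow_mul, mul_comm e 2, pow_mul,
        h2.eq_neg_one_of_two_right]
      ring
    · rw [map_mul, map_mul, g2, map_pow, map_pow, aeval_X, aeval_X, hodd.neg_pow, neg_mul]
  · obtain ⟨F1, hF1⟩ : ∃ F1 : ℤ, F = 2 * F1 := ⟨F / 2, by omega⟩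
    have hF1o : F1 % 4 = 1 ∨ F1 % 4 = 3 := by
      have h1 : F1 % 2 = 1 := by
        rcases Int.emod_two_eq_zero_or_one F1 with h | h
        · exfalso
          obtain ⟨c, hc⟩ : (2 : ℤ) ∣ F1 := Int.dvd_of_emod_eq_zero h
          have h22 : (2 : ℤ) * 2 ∣ F := ⟨c, by rw [hF1, hc]; ring⟩
          have := Int.isUnit_iff.1 (hsq 2 h22)
          omega
        · exact h
      omega
    have hF1r : F1 ∣ (r : ℤ) := (Dvd.intro_left 2 hF1.symm).trans hFr
    obtain ⟨G, hG⟩ := odd_partP r hr0 F1.natAbs (by omega) (Int.natAbs_dvd_natAbs.mpr hF1r)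
    obtain ⟨e, he⟩ : ∃ e, r = e * 4 := ⟨r / 4, by omega⟩
    have hodd : Odd e := Nat.odd_iff.mpr (by omega)
    have hodd2 : Odd (2 * r - e) := by
      rw [Nat.odd_iff]
      omega
    have key : ∀ w : ℂ, IsPrimitiveRoot (w ^ 2) r → (w ^ (2 * e)) ^ 2 = -1 ∧
        (w ^ e + w ^ (2 * r - e)) ^ 2 = 2 := by
      intro w hw
      have h4 : IsPrimitiveRoot ((w ^ 2) ^ e) 4 := hw.pow hr0 he
      have h2 : IsPrimitiveRoot (((w ^ 2) ^ e) ^ 2) 2 := h4.pow (by norm_num) (by norm_num)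
      have h3 : (w ^ (2 * e)) ^ 2 = -1 := by
        rw [pow_mul]
        exact h2.eq_neg_one_of_two_right
      refine ⟨h3, ?_⟩
      have h5 : w ^ e * w ^ (2 * r - e) = 1 := by
        rw [← pow_add, show e + (2 * r - e) = 2 * r by omega, pow_mul, hw.pow_eq_one]
      have h6 : w ^ (2 * e) = w ^ e * w ^ e := by rw [← pow_add]; congr 1; ring
      have h7 : w ^ (2 * e) * (w ^ (2 * r - e) * w ^ (2 * r - e)) = 1 := by
        rw [h6]
        linear_combination (w ^ e * w ^ (2 * r - e) + 1) * h5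
      rw [h6] at h3 h7
      have h9 : w ^ e * w ^ e + w ^ (2 * r - e) * w ^ (2 * r - e) = 0 := by
        have h10 : (w ^ e * w ^ e) * (w ^ e * w ^ e + w ^ (2 * r - e) * w ^ (2 * r - e)) = 0 := by
          linear_combination h3 + h7
        rcases mul_eq_zero.mp h10 with h | h
        · exfalso
          rw [h] at h3
          norm_num at h3
        · exact h
      linear_combination h9 + 2 * h5
    rcases hF1o with h1 | h1
    · refine ⟨(X ^ e + X ^ (2 * r - e)) * G, fun w hw => ?_⟩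
      obtain ⟨g1, g2⟩ := hG w hw
      obtain ⟨k1, k2⟩ := key w hw
      constructor
      · rw [map_mul, map_add, map_pow, map_pow, aeval_X, mul_pow, k2, g1, (sgn F1).1 h1, hF1]
        push_cast
        ring
      · rw [map_mul, map_mul, g2, map_add, map_add, map_pow, map_pow, map_pow, map_pow, aeval_X,
          aeval_X, hodd.neg_pow, hodd2.neg_pow]
        ring
    · refine ⟨X ^ (2 * e) * ((X ^ e + X ^ (2 * r - e)) * G), fun w hw => ?_⟩
      obtain ⟨g1, g2⟩ := hG w hw
      obtain ⟨k1, k2⟩ := key w hw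
      constructor
      · rw [map_mul, map_mul, map_add, map_pow, map_pow, map_pow, aeval_X, mul_pow, mul_pow, k1, k2,
          g1, (sgn F1).2 h1, hF1]
        push_cast
        ring
      · rw [map_mul, map_mul, map_mul, map_mul, g2, map_add, map_add, map_pow, map_pow, map_pow,
          map_pow, map_pow, map_pow, aeval_X, aeval_X, hodd.neg_pow, hodd2.neg_pow,
          (even_two_mul e).neg_pow]
        ring

end PkGS2

end Pool.Agent.Helper59.LUC
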